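import Mathlib
import Pool.Agent.H118.EP.Count2

set_option autoImplicit false

/-!
# Near relations between `1, e, π` are doubly exponentially sparse

Let `w > 3`. For every real number `t`, for instance `t = π`, the primitive integer vectors
`(a, b, d)`, `b ≠ 0`, `d > 0`, of height `h = max (|a|, |b|, |d|)` at most `X` with
`|a + b e + d t| ≤ h ^ (-w)` number at most `log log X / log ρ + C`, for each `ρ` with
`1 < ρ < (w - 1) / 2`; the constant `C` depends on `w` and `ρ` only, not on `t` and `X`. The same for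
`a + b e^j + d t` with any fixed `j ≥ 1`.

Let `w > 5`. For every real number `t` the near relations of exponent `w` of all the forms
`a + b e^j + d t`, `j` in a given finite set, number at most `log log X / log ρ + C` in total, for
each `ρ` with `1 < ρ < (w - 2) / 3`.

(An exact relation `a + b e^j + d t = 0` is counted as a near relation.)

Proof. Two different near relations of heights `h ≤ h'` satisfy `h' ≥ h ^ ρ` if `h` is large: the
elimination of `t` gives a nonzero integer linear form in `1, e^j, e^l`, to which the measure of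
linear independence of powers of `e` (starting file `Pool/Agent/W472/AC/EMeas2.lean`) is applied.
-/

namespace Pool.Agent.Results.MP_58e087_nt.DoublyExponentialGaps

/-- the height `max (|a|, |b|, |d|)` of an integer vector -/
noncomputable def height (a b d : ℤ) : ℝ := max |(a : ℝ)| (max |(b : ℝ)| |(d : ℝ)|)

/-- The tuples `(j, a, b, d)` with `j ∈ J`, `b ≠ 0`, `d > 0`, `gcd (a, b, d) = 1`, of height at most
`X`, with `|a + b e^j + d t| ≤ height (a, b, d) ^ (-w)`. -/
def Near (J : Finset ℕ) (t w X : ℝ) : Set (ℕ × ℤ × ℤ × ℤ) :=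
  {v | v.1 ∈ J ∧ v.2.2.1 ≠ 0 ∧ 0 < v.2.2.2 ∧ Int.gcd v.2.1 (Int.gcd v.2.2.1 v.2.2.2) = 1 ∧
    height v.2.1 v.2.2.1 v.2.2.2 ≤ X ∧
    |(v.2.1 : ℝ) + v.2.2.1 * Real.exp 1 ^ v.1 + v.2.2.2 * t| ≤
      height v.2.1 v.2.2.1 v.2.2.2 ^ (-w)}

/-- **The number of near relations.** -/
theorem result :
    (∀ (j : ℕ) (w ρ : ℝ), 1 ≤ j → 1 < ρ → 2 * ρ + 1 < w → ∃ C : ℝ, ∀ t X : ℝ, 3 ≤ X →
      (Near {j} t w X).Finite ∧
      ((Near {j} t w X).ncard : ℝ) ≤ Real.log (Real.log X) / Real.log ρ + C) ∧
    (∀ (J : Finset ℕ) (w ρ : ℝ), (∀ j ∈ J, 1 ≤ j) → 1 < ρ → 3 * ρ + 2 < w → ∃ C : ℝ,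
      ∀ t X : ℝ, 3 ≤ X → (Near J t w X).Finite ∧
      ((Near J t w X).ncard : ℝ) ≤ Real.log (Real.log X) / Real.log ρ + C) := by
  constructor
  · intro j w ρ hj hρ hw
    refine Pool.Agent.H118.EP.count_main {j} (by simpa using hj) 1 ?_ w ρ hρ (by
      push_cast
      linarith)
    intro a ha b hb
    rw [Finset.mem_singleton] at ha hb
    subst ha
    subst hb
    unfold Pool.Agent.H118.EP.Sup
    rw [Finset.union_self]
    exact Finset.card_image_le.trans (by simp)
  · intro J w ρ hJ hρ hw
    exact Pool.Agent.H118.EP.count_main J hJ 2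
      (fun a _ b _ => Pool.Agent.H118.EP.card_Sup a 1 b 1) w ρ hρ (by
        push_cast
        linarith)

end Pool.Agent.Results.MP_58e087_nt.DoublyExponentialGaps
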