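import Mathlib
import Pool.Agent.H118.EP.Scale2

set_option autoImplicit false

/-!
# Near relations `a + b e^j + d π^k` at one scale

We compare, at one scale `X`, all near relations `a + b e^j + d t^k` with integer coefficients of
absolute value at most `X`, `b ≠ 0`, for all exponents `j, k` in a finite range. Here `t` is an
arbitrary real number, for instance `t = π`; the constants do not depend on `X`.

(1) If `|t| ≤ T` and `j, k, l, m ≤ N`, then two forms `a + b e^j + d t^k` and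
`a' + b' e^l + d' t^m` can only both be smaller than `c X ^ (-w)`, `w = s² + s - 1 + η`, `s = k + m`,
if `(j, k) = (l, m)` and the two coefficient vectors are proportional, or if `a = a' = 0` and
`j m = l k` (this happens if a ratio `e^j / t^k` is rational, for instance).

(2) For `k = m = 1` and all real `t` the second possibility does not occur: at every scale `X` all
forms `a + b e^j + d t` (`1 ≤ j ≤ N`) smaller than `c X ^ (-(5 + η))` have the same `j` and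
proportional coefficients.

(3) For one exponent `j ≥ 1` (for instance `j = 1`) and all real `t` all the forms `a + b e^j + d t`
smaller than `c X ^ (-(3 + η))` are proportional.

Proof. Elimination of `t` gives the number `(-d')^k (a + b e^j)^m - (-d)^m (a' + b' e^l)^k`, a
polynomial in `e` with at most `k + m + 1` terms, to which the measure of linear independence of
powers of `e` (starting file `Pool/Agent/W472/AC/EMeas2.lean`) is applied.
-/

namespace Pool.Agent.Results.MP_58e087_nt.EveryScale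

/-- `(a, b, d)` and `(a', b', d')` are proportional -/
def Proportional (a b d a' b' d' : ℤ) : Prop := a * b' = a' * b ∧ a * d' = a' * d ∧ b * d' = b' * d

/-- the absolute values of `a, b, d` are at most `X` -/
def Bounded (X : ℝ) (a b d : ℤ) : Prop := |(a : ℝ)| ≤ X ∧ |(b : ℝ)| ≤ X ∧ |(d : ℝ)| ≤ X

/-- **Near relations between `1, e^j` and `t^k` at one scale.** -/
theorem result :
    (∀ (N : ℕ) (T η : ℝ), 0 < η → ∃ c : ℝ, 0 < c ∧ ∀ t : ℝ, |t| ≤ T → ∀ X : ℝ, 1 ≤ X →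
      ∀ j k l m : ℕ, 1 ≤ j → 1 ≤ k → 1 ≤ l → 1 ≤ m → j ≤ N → k ≤ N → l ≤ N → m ≤ N →
      ∀ a b d a' b' d' : ℤ, b ≠ 0 → b' ≠ 0 → Bounded X a b d → Bounded X a' b' d' →
      |(a : ℝ) + b * Real.exp 1 ^ j + d * t ^ k| <
        c * X ^ (-(((k : ℝ) + m) ^ 2 + (k + m) - 1 + η)) →
      |(a' : ℝ) + b' * Real.exp 1 ^ l + d' * t ^ m| <
        c * X ^ (-(((k : ℝ) + m) ^ 2 + (k + m) - 1 + η)) →
      (j = l ∧ k = m ∧ Proportional a b d a' b' d') ∨ (a = 0 ∧ a' = 0 ∧ j * m = l * k)) ∧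
    (∀ (N : ℕ) (η : ℝ), 0 < η → ∃ c : ℝ, 0 < c ∧ ∀ t X : ℝ, 1 ≤ X →
      ∀ j l : ℕ, 1 ≤ j → 1 ≤ l → j ≤ N → l ≤ N →
      ∀ a b d a' b' d' : ℤ, b ≠ 0 → b' ≠ 0 → Bounded X a b d → Bounded X a' b' d' →
      |(a : ℝ) + b * Real.exp 1 ^ j + d * t| < c * X ^ (-(5 + η)) →
      |(a' : ℝ) + b' * Real.exp 1 ^ l + d' * t| < c * X ^ (-(5 + η)) →
      j = l ∧ Proportional a b d a' b' d') ∧
    (∀ (j : ℕ) (η : ℝ), 1 ≤ j → 0 < η → ∃ c : ℝ, 0 < c ∧ ∀ t X : ℝ, 1 ≤ X →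
      ∀ a b d a' b' d' : ℤ, b ≠ 0 → b' ≠ 0 → Bounded X a b d → Bounded X a' b' d' →
      |(a : ℝ) + b * Real.exp 1 ^ j + d * t| < c * X ^ (-(3 + η)) →
      |(a' : ℝ) + b' * Real.exp 1 ^ j + d' * t| < c * X ^ (-(3 + η)) →
      Proportional a b d a' b' d') := by
  have part3 : ∀ (j : ℕ) (η : ℝ), 1 ≤ j → 0 < η → ∃ c : ℝ, 0 < c ∧ ∀ t X : ℝ, 1 ≤ X →
      ∀ a b d a' b' d' : ℤ, b ≠ 0 → b' ≠ 0 → Bounded X a b d → Bounded X a' b' d' →
      |(a : ℝ) + b * Real.exp 1 ^ j + d * t| < c * X ^ (-(3 + η)) →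
      |(a' : ℝ) + b' * Real.exp 1 ^ j + d' * t| < c * X ^ (-(3 + η)) →
      Proportional a b d a' b' d' := by
    intro j η hj hη
    obtain ⟨c, hc, h⟩ := Pool.Agent.H118.EP.lin_same j hj η hη
    exact ⟨c, hc, fun t X hX a b d a' b' d' hb hb' h1 h2 g1 g2 =>
      h t X hX a b d a' b' d' hb hb' h1.1 h1.2.1 h1.2.2 h2.1 h2.2.1 h2.2.2 g1 g2⟩
  have part2 : ∀ (N : ℕ) (η : ℝ), 0 < η → ∃ c : ℝ, 0 < c ∧ ∀ t X : ℝ, 1 ≤ X →
      ∀ j l : ℕ, 1 ≤ j → 1 ≤ l → j ≤ N → l ≤ N →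
      ∀ a b d a' b' d' : ℤ, b ≠ 0 → b' ≠ 0 → Bounded X a b d → Bounded X a' b' d' →
      |(a : ℝ) + b * Real.exp 1 ^ j + d * t| < c * X ^ (-(5 + η)) →
      |(a' : ℝ) + b' * Real.exp 1 ^ l + d' * t| < c * X ^ (-(5 + η)) →
      j = l ∧ Proportional a b d a' b' d' := by
    intro N η hη
    have h1 : ∀ q : ℕ × ℕ, ∃ c : ℝ, 0 < c ∧ (1 ≤ q.1 → 1 ≤ q.2 →
        ∀ t X : ℝ, 1 ≤ X → ∀ a b d a' b' d' : ℤ, b ≠ 0 → b' ≠ 0 →
        Bounded X a b d → Bounded X a' b' d' →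
        |(a : ℝ) + b * Real.exp 1 ^ q.1 + d * t| < c * X ^ (-(5 + η)) →
        |(a' : ℝ) + b' * Real.exp 1 ^ q.2 + d' * t| < c * X ^ (-(5 + η)) →
        q.1 = q.2 ∧ Proportional a b d a' b' d') := by
      rintro ⟨j, l⟩
      by_cases hj : 1 ≤ j ∧ 1 ≤ l
      · by_cases hjl : j = l
        · subst hjl
          obtain ⟨c, hc, h⟩ := part3 j η hj.1 hη
          refine ⟨c, hc, fun _ _ t X hX a b d a' b' d' hb hb' h1 h2 g1 g2 =>
            ⟨rfl, h t X hX a b d a' b' d' hb hb' h1 h2 (g1.trans_le ?_) (g2.trans_le ?_)⟩⟩ <;>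
          · refine mul_le_mul_of_nonneg_left ?_ hc.le
            exact Real.rpow_le_rpow_of_exponent_le hX (by linarith)
        · obtain ⟨c, hc, h⟩ := Pool.Agent.H118.EP.lin_diff j l hj.1 hj.2 hjl η hη
          exact ⟨c, hc, fun _ _ t X hX a b d a' b' d' hb hb' h1 h2 g1 g2 => absurd g2
            (h t X hX a b d a' b' d' hb hb' h1.1 h1.2.1 h1.2.2 h2.1 h2.2.1 h2.2.2 g1)⟩
      · exact ⟨1, one_pos, fun h1 h2 => absurd ⟨h1, h2⟩ hj⟩
    choose f hf0 hf using h1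
    obtain ⟨c, hc, hcf⟩ := Pool.Agent.H118.EP.exists_pos_le
      (Finset.range (N + 1) ×ˢ Finset.range (N + 1)) f (fun q _ => hf0 q)
    refine ⟨c, hc, fun t X hX j l hj hl hjN hlN a b d a' b' d' hb hb' h1 h2 g1 g2 => ?_⟩
    have h3 := hcf (j, l) (by simp only [Finset.mem_product, Finset.mem_range]; omega)
    have h4 : c * X ^ (-(5 + η)) ≤ f (j, l) * X ^ (-(5 + η)) :=
      mul_le_mul_of_nonneg_right h3 (Real.rpow_nonneg (by linarith) _)
    exact hf (j, l) hj hl t X hX a b d a' b' d' hb hb' h1 h2 (g1.trans_le h4) (g2.trans_le h4)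
  refine ⟨?_, part2, part3⟩
  intro N T η hη
  obtain ⟨c1, hc1, -, h1⟩ := Pool.Agent.H118.EP.general N η T hη
  have h2 : ∀ j : ℕ, ∃ c : ℝ, 0 < c ∧ (1 ≤ j → ∀ t X : ℝ, 1 ≤ X →
      ∀ a b d a' b' d' : ℤ, b ≠ 0 → b' ≠ 0 → Bounded X a b d → Bounded X a' b' d' →
      |(a : ℝ) + b * Real.exp 1 ^ j + d * t| < c * X ^ (-(3 + η)) →
      |(a' : ℝ) + b' * Real.exp 1 ^ j + d' * t| < c * X ^ (-(3 + η)) →
      Proportional a b d a' b' d') := by
    intro j
    by_cases hj : 1 ≤ j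
    · obtain ⟨c, hc, h⟩ := part3 j η hj hη
      exact ⟨c, hc, fun _ => h⟩
    · exact ⟨1, one_pos, fun h => absurd h hj⟩
  choose f hf0 hf using h2
  obtain ⟨c2, hc2, hcf⟩ := Pool.Agent.H118.EP.exists_pos_le (Finset.range (N + 1)) f
    (fun q _ => hf0 q)
  refine ⟨min c1 c2, lt_min hc1 hc2, ?_⟩
  intro t ht X hX j k l m hj hk hl hm hjN hkN hlN hmN a b d a' b' d' hb hb' hB hB' g1 g2
  have hX0 : 0 < X := by linarith
  obtain ⟨w, hw⟩ : ∃ w : ℝ, w = ((k : ℝ) + m) ^ 2 + (k + m) - 1 + η := ⟨_, rfl⟩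
  rw [← hw] at g1 g2
  have hXw := Real.rpow_nonneg hX0.le (-w)
  by_cases hne : j = l ∧ k = m
  · left
    obtain ⟨rfl, rfl⟩ := hne
    refine ⟨rfl, rfl, ?_⟩
    have h3 : min c1 c2 ≤ f j := (min_le_right _ _).trans (hcf j (by
      rw [Finset.mem_range]; omega))
    have hkR : (1 : ℝ) ≤ k := by exact_mod_cast hk
    have h4 : min c1 c2 * X ^ (-w) ≤ f j * X ^ (-(3 + η)) := by
      refine mul_le_mul h3 ?_ hXw (hf0 j).le
      refine Real.rpow_le_rpow_of_exponent_le hX ?_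
      rw [hw]
      nlinarith
    exact hf j hj (t ^ k) X hX a b d a' b' d' hb hb' hB hB' (g1.trans_le h4) (g2.trans_le h4)
  · right
    have h4 : min c1 c2 * X ^ (-w) ≤ c1 * X ^ (-w) :=
      mul_le_mul_of_nonneg_right (min_le_left _ _) hXw
    refine h1 t ht X hX j k l m hj hk hl hm hjN hkN hlN hmN hne a b d a' b' d' hb hb' hB.1 hB.2.1
      hB.2.2 hB'.1 hB'.2.1 hB'.2.2 ?_ ?_
    · rw [← hw]; exact g1.trans_le h4
    · rw [← hw]; exact g2.trans_le h4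

end Pool.Agent.Results.MP_58e087_nt.EveryScale
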