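import Mathlib
import Pool.Agent.H118.EP.Logs

set_option autoImplicit false

/-!
# Linear relations between `1`, an exponential and a logarithm

Consider the triples `1, e^α, u`, where `α ≠ 0` is algebraic and `u ≠ 0` is an algebraic multiple of
a logarithm of an algebraic number, for instance `u = π` or `u = log 2`. The triples which are
linearly dependent over the field of algebraic numbers form a partial matching: for given `u` there
is at most one such `α`, and for given `α` all such `u` are algebraic multiples of each other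
(parts (1), (2)).

The exponents `α` which occur in such a triple are sparse. More generally let `D` be the set of all
algebraic `α` such that `e^α` is a linear form `β_0 + β_1 log γ_1 + … + β_m log γ_m` in logarithms
with algebraic coefficients and algebraic `γ_i` (any `m`). Every nonzero number is a difference of
two elements of `D` in at most two ways (part (4)). Hence among `β + α, β + 2 α, …, β + N α`
(`α ≠ 0`, `β` algebraic) there are at most `m` elements of `D`, where `m (m - 1) ≤ 4 (N - 1)`, and
among `α, 2 α, …, N α` at most `m` with `m (m + 1) ≤ 4 N` (parts (5), (6)). So for all but at most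
`2 √N` of the integers `n ≤ N` the numbers `1, e^n, u` are linearly independent over the algebraic
numbers for all these `u` at once.

The proof uses the theorems of Lindemann-Weierstrass and Baker and the strong six exponentials
theorem of D. Roy, all from starting files.
-/

namespace Pool.Agent.Results.MP_58e087_nt.ExponentialsAndLogarithms

/-- `u` is a nonzero algebraic multiple of a logarithm of an algebraic number -/
def LogMultiple (u : ℂ) : Prop :=
  u ≠ 0 ∧ ∃ b : ℂ, b ≠ 0 ∧ IsAlgebraic ℚ b ∧ IsAlgebraic ℚ (Complex.exp (b * u))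

/-- `1, e^α, u` are linearly dependent over the field of algebraic numbers -/
def Dependent (α u : ℂ) : Prop :=
  ¬ LinearIndependent (algebraicClosure ℚ ℂ) ![(1 : ℂ), Complex.exp α, u]

/-- `z` is a linear form in `1` and logarithms of algebraic numbers, with algebraic coefficients -/
def LogForm (z : ℂ) : Prop :=
  z ∈ Submodule.span (algebraicClosure ℚ ℂ) ({1} ∪ {u : ℂ | IsAlgebraic ℚ (Complex.exp u)})

/-- **Linear relations between `1`, an exponential and a logarithm.** -/
theorem result :
    -- (0) `π` is one of the numbers `u`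
    LogMultiple (Real.pi : ℂ) ∧
    -- (1) one number `u`
    (∀ α β u : ℂ, IsAlgebraic ℚ α → IsAlgebraic ℚ β → α ≠ 0 → β ≠ 0 → LogMultiple u →
      Dependent α u → Dependent β u → α = β) ∧
    -- (2) one number `α`
    (∀ α u v : ℂ, IsAlgebraic ℚ α → α ≠ 0 → LogMultiple u → LogMultiple v →
      Dependent α u → Dependent α v → ∃ r : ℂ, IsAlgebraic ℚ r ∧ v = r * u) ∧
    -- (3) relation with the linear forms in logarithms
    (∀ α u : ℂ, LogMultiple u → Dependent α u → LogForm (Complex.exp α)) ∧
    -- (4) every difference occurs at most twice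
    (∀ δ : ℂ, IsAlgebraic ℚ δ → δ ≠ 0 → ∀ b : Fin 3 → ℂ, (∀ i, IsAlgebraic ℚ (b i)) →
      Function.Injective b →
      ∃ i, ¬ (LogForm (Complex.exp (b i)) ∧ LogForm (Complex.exp (b i + δ)))) ∧
    -- (5) arithmetic progressions
    (∀ α β : ℂ, IsAlgebraic ℚ α → IsAlgebraic ℚ β → α ≠ 0 → ∀ N m : ℕ, 1 ≤ N →
      m = {n : ℕ | 1 ≤ n ∧ n ≤ N ∧ LogForm (Complex.exp (β + n * α))}.ncard →
      m * (m - 1) ≤ 4 * (N - 1)) ∧
    -- (6) multiples
    (∀ α : ℂ, IsAlgebraic ℚ α → α ≠ 0 → ∀ N m : ℕ,
      m = {n : ℕ | 1 ≤ n ∧ n ≤ N ∧ LogForm (Complex.exp (n * α))}.ncard →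
      m * (m + 1) ≤ 4 * N) := by
  classical
  refine ⟨Pool.Agent.H118.EP.logMul_pi,
    fun α β u hα hβ hα0 hβ0 hu h1 h2 =>
      Pool.Agent.H118.EP.one_exponent' hα hβ hα0 hβ0 hu h1 h2,
    fun α u v hα hα0 hu hv h1 h2 => Pool.Agent.H118.EP.one_log' hα hα0 hu hv h1 h2,
    fun α u hu h => Pool.Agent.H118.EP.mem_of_logMul hu h, ?_, ?_, ?_⟩
  · intro δ hδ hδ0 b hb hinj
    by_contra hcon
    push Not at hcon
    exact Pool.Agent.H118.EP.no_three hδ hδ0 b hb hinj (fun i => (hcon i).1) (fun i => (hcon i).2)
  · intro α β hα hβ hα0 N m hN hm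
    obtain ⟨S, hS⟩ : ∃ S : Finset ℕ, S = (Finset.Icc 1 N).filter
      (fun n : ℕ => LogForm (Complex.exp (β + n * α))) := ⟨_, rfl⟩
    have hmS : m = S.card := by
      rw [hm, ← Set.ncard_coe_finset, hS]
      congr 1
      ext n
      simp [and_assoc]
    have h1 := Pool.Agent.H118.EP.count_ap hα hβ hα0 (N - 1) 1 (S.map Nat.castEmbedding) (by
      intro n hn
      rw [Finset.mem_map] at hn
      obtain ⟨k, hk, rfl⟩ := hn
      rw [hS, Finset.mem_filter, Finset.mem_Icc] at hk
      simp only [Nat.castEmbedding_apply]
      omega) (by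
      intro n hn
      rw [Finset.mem_map] at hn
      obtain ⟨k, hk, rfl⟩ := hn
      rw [hS, Finset.mem_filter] at hk
      have h2 : Complex.exp (β + k * α) ∈ Pool.Agent.H301R2.SSE.Lt := hk.2
      simpa using h2)
    rw [Finset.card_map, ← hmS] at h1
    rw [Nat.mul_sub, mul_one]
    exact h1
  · intro α hα hα0 N m hm
    obtain ⟨S, hS⟩ : ∃ S : Finset ℕ, S = (Finset.Icc 1 N).filter
      (fun n : ℕ => LogForm (Complex.exp (n * α))) := ⟨_, rfl⟩
    have hmS : m = S.card := by
      rw [hm, ← Set.ncard_coe_finset, hS]
      congr 1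
      ext n
      simp [and_assoc]
    have h0 : 0 ∉ S := by
      rw [hS, Finset.mem_filter, Finset.mem_Icc]
      omega
    have h1 := Pool.Agent.H118.EP.count_ap hα isAlgebraic_zero hα0 N 0
      ((insert 0 S).map Nat.castEmbedding) (by
      intro n hn
      rw [Finset.mem_map] at hn
      obtain ⟨k, hk, rfl⟩ := hn
      rw [Finset.mem_insert, hS, Finset.mem_filter, Finset.mem_Icc] at hk
      simp only [Nat.castEmbedding_apply]
      omega) (by
      intro n hn
      rw [Finset.mem_map] at hn
      obtain ⟨k, hk, rfl⟩ := hn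
      rw [Finset.mem_insert] at hk
      rcases hk with rfl | hk
      · simp only [Nat.castEmbedding_apply, Nat.cast_zero, Int.cast_zero, zero_mul, add_zero,
          Complex.exp_zero]
        exact Pool.Agent.H301R2.SSE.Lt_one
      · rw [hS, Finset.mem_filter] at hk
        have h2 : Complex.exp (k * α) ∈ Pool.Agent.H301R2.SSE.Lt := hk.2
        simpa using h2)
    rw [Finset.card_map, Finset.card_insert_of_notMem h0, ← hmS] at h1
    have e : (m + 1) * (m + 1) - (m + 1) = m * (m + 1) := by
      have : (m + 1) * (m + 1) = m * (m + 1) + (m + 1) := by ring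
      omega
    rw [e] at h1
    exact h1

end Pool.Agent.Results.MP_58e087_nt.ExponentialsAndLogarithms
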