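import Mathlib
import Pool.Agent.H118.EP.Core

set_option autoImplicit false

/-!
# `1, e^α, π^r` are linearly independent for all pairs `(α, r)` with at most one exception

Let `α` run through the nonzero (complex) algebraic numbers and `r` through the nonzero rational
numbers. We show, for `t = π` and more generally for every transcendental real number `t > 0`:

(1) if `e^γ / t` is transcendental for every algebraic `γ`, then the numbers `1, e^α, t^r` are
linearly independent over the field of algebraic numbers for all pairs `(α, r)` with at most one
exception;

(2) if `e^γ / t` is algebraic for some algebraic `γ`, then the pairs `(α, r)` for which `1, e^α, t^r`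
are linearly dependent over the field of algebraic numbers are exactly the pairs `(r γ, r)`.

So if `1, e, π` are linearly dependent over `ℚ` (the pair `(1, 1)`), then `1, e^α, π^r` are linearly
independent over the algebraic numbers for every other pair, unless `e / π` is rational.

Proof. From `e^α = A + B t^r` and `e^β = A' + B' t^s` one gets the relation
`((e^α - A) / B)^(l) = ((e^β - A') / B')^(k)` with integers `k, l` with `k / l = r / s`, and the
theorem of Lindemann and Weierstrass turns it into an identity between polynomials, which is only
possible if the two relations are the same or if `A = A' = 0`.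
-/

namespace Pool.Agent.Results.MP_58e087_nt.OneExceptionalPair

/-- The numbers `1, e^α, t^r` are linearly dependent over the field of algebraic numbers. -/
def Dependent (t : ℝ) (α : ℂ) (r : ℚ) : Prop :=
  ¬ LinearIndependent (algebraicClosure ℚ ℂ) ![(1 : ℂ), Complex.exp α, ((t ^ (r : ℝ) : ℝ) : ℂ)]

/-- `1, e^α, π^r` are linearly independent over the field of algebraic numbers for all pairs of a
nonzero algebraic number `α` and a nonzero rational number `r` with at most one exception, or the
exceptions are the pairs `(r γ, r)` for one `γ` with `e^γ / π` algebraic. The same for every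
transcendental `t > 0` in place of `π`. -/
theorem result :
    (0 < Real.pi ∧ Transcendental ℚ Real.pi) ∧
    ∀ t : ℝ, 0 < t → Transcendental ℚ t →
      ((∀ γ : ℂ, IsAlgebraic ℚ γ → Transcendental ℚ (Complex.exp γ / t)) →
        ∀ (α β : ℂ) (r s : ℚ), IsAlgebraic ℚ α → IsAlgebraic ℚ β → α ≠ 0 → β ≠ 0 → r ≠ 0 →
          s ≠ 0 → Dependent t α r → Dependent t β s → α = β ∧ r = s) ∧
      (∀ γ : ℂ, IsAlgebraic ℚ γ → IsAlgebraic ℚ (Complex.exp γ / t) →
        ∀ (α : ℂ) (r : ℚ), IsAlgebraic ℚ α → α ≠ 0 → r ≠ 0 →
          (Dependent t α r ↔ α = r * γ)) :=
  ⟨⟨Real.pi_pos, Pool.Agent.H340R2.LW.transcendental_pi⟩,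
    fun t ht0 ht => Pool.Agent.H118.EP.main t ht0 ht⟩

end Pool.Agent.Results.MP_58e087_nt.OneExceptionalPair
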